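import Pool.Agent.H340.RS.Stm2

/-!
# Project RSG: subtask T7
-/

set_option autoImplicit false

namespace Pool.Agent.H115.RSG

open Real

theorem T7 : Pool.Agent.H340.RS.ST7 := by
  intro κ A h1 h2 hA
  obtain ⟨A', hA'⟩ : ∃ A', A' = max A 1 := ⟨_, rfl⟩
  have hA1 : 1 ≤ A' := by rw [hA']; exact le_max_right _ _
  have hAA : A ≤ A' := by rw [hA']; exact le_max_left _ _
  obtain ⟨l, hl⟩ : ∃ l, l = Real.log (10 * A') := ⟨_, rfl⟩
  have hl0 : 0 ≤ l := by
    rw [hl]
    exact Real.log_nonneg (by linarith)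
  obtain ⟨t, ht⟩ : ∃ t : ℝ, t = 38 + 4 * l := ⟨_, rfl⟩
  have ht0 : 38 ≤ t := by linarith
  obtain ⟨K1, hK1⟩ : ∃ K1 : ℝ, K1 = t ^ 2 - 2 := ⟨_, rfl⟩
  have hK1p : 1000 ≤ K1 := by nlinarith
  have hlogK : Real.log (K1 + 2) ≤ 2 * t := by
    have e : K1 + 2 = t ^ 2 := by linarith
    rw [e, Real.log_pow]
    have := Real.log_le_self (by linarith : (0 : ℝ) ≤ t)
    push_cast
    linarith
  have hlogK0 : 0 ≤ Real.log (K1 + 2) := Real.log_nonneg (by linarith)
  have hkey : 12 + 4 * l + 12 * Real.log (K1 + 2) ≤ K1 := by nlinarith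
  have hln2 := Real.log_two_gt_d9
  refine ⟨max (K1 + 2) (2 * A'), lt_max_of_lt_left (by linarith), fun M hM => ?_⟩
  have hM1 : (1 : ℝ) ≤ M := by exact_mod_cast hM
  obtain ⟨L, hL⟩ : ∃ L, L = Real.log (2 * M) := ⟨_, rfl⟩
  have hL1 : 1 / 2 < L := by
    have : Real.log 2 ≤ L := by
      rw [hL]
      exact Real.log_le_log (by norm_num) (by linarith)
    linarith
  have hL2 : L ≤ 2 * M := by
    rw [hL]
    exact Real.log_le_self (by linarith)
  have hML : 1 / 2 < M * L := by nlinarith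
  obtain ⟨W, hW⟩ : ∃ W : ℕ, W = ⌈K1 * (M * L)⌉₊ := ⟨_, rfl⟩
  have hW1 : K1 * (M * L) ≤ W := by
    rw [hW]
    exact Nat.le_ceil _
  have hW2 : (W : ℝ) < K1 * (M * L) + 1 := by
    rw [hW]
    exact Nat.ceil_lt_add_one (by positivity)
  have hW3 : (W : ℝ) ≤ (K1 + 2) * (M * L) := by nlinarith
  have hWr : (1 : ℝ) ≤ W := by nlinarith
  have hWn : 1 ≤ W := by exact_mod_cast hWr
  have hWk : (1 : ℝ) ≤ (W : ℝ) ^ κ := Real.one_le_rpow hWr (by linarith)
  have hWk0 : (0 : ℝ) ≤ (W : ℝ) ^ κ := by linarith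
  have hx : 1 ≤ A' * (W : ℝ) ^ κ := by nlinarith
  obtain ⟨b, hb1, hb2⟩ := exists_nat_pow_near hx (by norm_num : (1 : ℝ) < 2)
  have hW4 : (W : ℝ) ^ κ ≤ (W : ℝ) ^ 2 := by
    rw [← Real.rpow_natCast]
    exact Real.rpow_le_rpow_of_exponent_le hWr (by push_cast; exact h2)
  refine ⟨W, b + 1, hWn, ?_, ?_, ?_, ?_⟩
  · rw [← hL]
    refine hW3.trans (mul_le_mul_of_nonneg_right (le_max_left _ _) (by linarith))
  · exact (mul_le_mul_of_nonneg_right hAA hWk0).trans_lt hb2
  · calc (2 : ℝ) ^ (b + 1) = 2 * 2 ^ b := by ring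
      _ ≤ 2 * (A' * (W : ℝ) ^ κ) := by linarith
      _ = 2 * A' * (W : ℝ) ^ κ := by ring
      _ ≤ max (K1 + 2) (2 * A') * (W : ℝ) ^ κ :=
          mul_le_mul_of_nonneg_right (le_max_right _ _) hWk0
  · have hlt : ((2 * (2 ^ (b + 1 + 1) * W) + 1 : ℕ) : ℝ) ≤ 10 * A' * (W : ℝ) ^ 3 * 1 := by
      push_cast
      have e1 : (2 : ℝ) ^ b * W ≤ A' * (W : ℝ) ^ 3 := by
        calc (2 : ℝ) ^ b * W ≤ A' * (W : ℝ) ^ κ * W := mul_le_mul_of_nonneg_right hb1 (by linarith)
          _ ≤ A' * (W : ℝ) ^ 2 * W := by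
              refine mul_le_mul_of_nonneg_right (mul_le_mul_of_nonneg_left hW4 (by linarith))
                (by linarith)
          _ = A' * (W : ℝ) ^ 3 := by ring
      have e2 : 1 ≤ (2 : ℝ) ^ b * W := by
        have := one_le_pow₀ (by norm_num : (1 : ℝ) ≤ 2) (n := b)
        nlinarith
      have e3 : (2 : ℝ) * (2 ^ (b + 1 + 1) * W) = 8 * (2 ^ b * W) := by ring
      rw [e3]
      nlinarith
    have hpos : (0 : ℝ) < ((2 * (2 ^ (b + 1 + 1) * W) + 1 : ℕ) : ℝ) := by positivity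
    have hlog : Real.log ((2 * (2 ^ (b + 1 + 1) * W) + 1 : ℕ) : ℝ) ≤ l + 3 * Real.log W := by
      refine (Real.log_le_log hpos hlt).trans (le_of_eq ?_)
      rw [mul_one, Real.log_mul (by positivity) (by positivity), Real.log_pow, hl]
      push_cast
      ring
    have hlogW : Real.log W ≤ Real.log (K1 + 2) + 2 * L := by
      have e1 : (W : ℝ) ≤ (K1 + 2) * (2 * M) ^ 2 := by
        refine hW3.trans (mul_le_mul_of_nonneg_left ?_ (by linarith))
        have h5 : (M : ℝ) * L ≤ M * (2 * M) := mul_le_mul_of_nonneg_left hL2 (by linarith)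
        have h6 : (0 : ℝ) ≤ M * M := by positivity
        calc (M : ℝ) * L ≤ M * (2 * M) := h5
          _ ≤ (2 * M) ^ 2 := by linarith only [h6]
      refine (Real.log_le_log (by linarith) e1).trans (le_of_eq ?_)
      rw [Real.log_mul (by positivity) (by positivity), Real.log_pow, ← hL]
      push_cast
      ring
    have hfin : (M : ℝ) * Real.log ((2 * (2 ^ (b + 1 + 1) * W) + 1 : ℕ) : ℝ) <
        W * Real.log 2 := by
      have e1 : (M : ℝ) * Real.log ((2 * (2 ^ (b + 1 + 1) * W) + 1 : ℕ) : ℝ) ≤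
          M * (l + 3 * Real.log (K1 + 2) + 6 * L) :=
        mul_le_mul_of_nonneg_left (by linarith) (by linarith)
      have e2 : l + 3 * Real.log (K1 + 2) + 6 * L ≤
          (2 * (l + 3 * Real.log (K1 + 2)) + 6) * L := by
        have hz : 0 ≤ l + 3 * Real.log (K1 + 2) := by positivity
        have hz2 := mul_nonneg hz (by linarith only [hL1] : 0 ≤ 2 * L - 1)
        linarith only [hz2]
      have e3 : (M : ℝ) * (l + 3 * Real.log (K1 + 2) + 6 * L) ≤
          M * ((2 * (l + 3 * Real.log (K1 + 2)) + 6) * L) :=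
        mul_le_mul_of_nonneg_left e2 (by linarith)
      have e4 : (M : ℝ) * ((2 * (l + 3 * Real.log (K1 + 2)) + 6) * L) ≤ K1 / 2 * (M * L) := by
        have : (2 * (l + 3 * Real.log (K1 + 2)) + 6) ≤ K1 / 2 := by linarith
        calc (M : ℝ) * ((2 * (l + 3 * Real.log (K1 + 2)) + 6) * L) =
            (2 * (l + 3 * Real.log (K1 + 2)) + 6) * (M * L) := by ring
          _ ≤ K1 / 2 * (M * L) := mul_le_mul_of_nonneg_right this (by linarith)
      have e5 : K1 / 2 * (M * L) < W * Real.log 2 := by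
        have : (W : ℝ) * (1 / 2) < W * Real.log 2 :=
          mul_lt_mul_of_pos_left (by linarith only [hln2]) (by linarith only [hWr])
        linarith only [this, hW1]
      linarith only [e1, e3, e4, e5]
    have h3 : ((2 * (2 ^ (b + 1 + 1) * W) + 1 : ℕ) : ℝ) ^ M < (2 : ℝ) ^ W := by
      rw [← Real.log_lt_log_iff (by positivity) (by positivity), Real.log_pow, Real.log_pow]
      exact hfin
    exact_mod_cast h3

end Pool.Agent.H115.RSG
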